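import Pool.Agent.R490.GPi

set_option autoImplicit false

/-!
# Almost all `n`: `k (n - k) + 1` is an almost prime for many of the smallest `k`
-/

namespace Pool.Agent.Results.MP_9d0b4d_nt.SmallestMultipliers

open Finset Filter

open Classical in
/-- the number of the integers `1 ≤ k ≤ T`, `k < n`, such that `N = k (n - k) + 1 ≥ 2` has at most `r` prime
factors (counted with multiplicity), all of them at least `w` -/
noncomputable def smallK (n r : ℕ) (w T : ℝ) : ℕ :=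
  ((Icc 1 ⌊T⌋₊).filter (fun k : ℕ => k < n ∧ ∃ N : ℕ, N = k * (n - k) + 1 ∧ 2 ≤ N ∧
    N.primeFactorsList.length ≤ r ∧ ∀ q : ℕ, q.Prime → q ∣ N → w ≤ q)).card

lemma cnt_le (n r : ℕ) (w T : ℝ) :
    R490.LGb.cnt R490.GPi.Am (R490.GPi.Bm (1)) r ⌊T⌋₊ n w ≤ smallK n r w T := by
  classical
  unfold R490.LGb.cnt smallK
  apply card_le_card
  intro j hj
  rw [mem_filter] at hj ⊢
  obtain ⟨h1, h2, h3, h4⟩ := hj
  obtain ⟨N, hN⟩ : ∃ N : ℕ, (N : ℤ) = (R490.GPi.Am j : ℤ) * n + R490.GPi.Bm (1) j :=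
    ⟨((R490.GPi.Am j : ℤ) * n + R490.GPi.Bm (1) j).toNat, Int.toNat_of_nonneg (by linarith)⟩
  rw [← hN] at h2 h3 h4
  rw [Int.toNat_natCast] at h3
  have e : (N : ℤ) = (j : ℤ) * ((n : ℤ) - j) + (1) := by
    rw [hN]
    unfold R490.GPi.Am R490.GPi.Bm
    ring
  have hlt : j < n := by
    by_contra hc
    push Not at hc
    have c1 : (n : ℤ) - j ≤ 0 := by
      have : (n : ℤ) ≤ j := by exact_mod_cast hc
      linarith
    have c2 : (j : ℤ) * ((n : ℤ) - j) ≤ 0 := mul_nonpos_of_nonneg_of_nonpos (by positivity) c1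
    linarith
  refine ⟨h1, hlt, N, ?_, by exact_mod_cast h2, h3, ?_⟩
  · obtain ⟨b, hb⟩ : ∃ b : ℕ, n = j + b := ⟨n - j, by omega⟩
    rw [hb] at e ⊢
    rw [Nat.add_sub_cancel_left]
    push_cast at e
    zify
    linarith
  · intro q hq hd
    exact h4 q hq (by exact_mod_cast hd)

/-- **For almost all `n`, `k (n - k) + 1` is an almost prime for many of the smallest `k`.** -/
theorem result (θ ε : ℝ) (r : ℕ) (hθ : 0 < θ) (hθ1 : θ ≤ 1) (hr : 1 / 8 + 25 / (12 * θ) < r) (hε : 0 < ε) :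
    ∃ κ Λ : ℝ, 0 < κ ∧ 0 < Λ ∧ ∀ l : ℝ, Λ ≤ l → ∃ X₀ : ℕ, ∀ X : ℕ, X₀ ≤ X → ∀ Z L : ℕ,
      (X : ℝ) ^ θ ≤ L → Z + L ≤ X →
      (({n : ℕ | n ∈ Ioc Z (Z + L) ∧
        (smallK n r ((X : ℝ) ^ (θ / 10)) (l * Real.log X) : ℝ) < κ * l} : Set ℕ).ncard : ℝ) ≤ ε * L := by
  classical
  obtain ⟨κ, Λ, hκ, hΛ, g⟩ := R490.GPi.mainM (1) (Or.inl rfl) θ ε r hθ hθ1 hr hε
  refine ⟨κ, Λ, hκ, hΛ, ?_⟩
  intro l hl
  obtain ⟨X₀, hX₀⟩ := eventually_atTop.1 (g l hl)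
  refine ⟨X₀, ?_⟩
  intro X hX Z L hL hZ
  refine le_trans ?_ (hX₀ X hX Z L hL hZ)
  have hsub : ({n : ℕ | n ∈ Ioc Z (Z + L) ∧
        (smallK n r ((X : ℝ) ^ (θ / 10)) (l * Real.log X) : ℝ) < κ * l} : Set ℕ) ⊆
      ((Ioc Z (Z + L)).filter (fun n => R490.GPi.AdmAll n ∧
        (R490.LGb.cnt R490.GPi.Am (R490.GPi.Bm (1)) r ⌊l * Real.log X⌋₊ n
          ((X : ℝ) ^ (θ / 10)) : ℝ) < κ * l) : Finset ℕ) := by
    intro n hn
    obtain ⟨a1, a2⟩ := hn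
    rw [mem_coe, mem_filter]
    refine ⟨a1, Nat.zero_le _, ?_⟩
    have a4 : (R490.LGb.cnt R490.GPi.Am (R490.GPi.Bm (1)) r ⌊l * Real.log X⌋₊ n ((X : ℝ) ^ (θ / 10)) : ℝ) ≤
        smallK n r ((X : ℝ) ^ (θ / 10)) (l * Real.log X) := by
      exact_mod_cast cnt_le n r ((X : ℝ) ^ (θ / 10)) (l * Real.log X)
    linarith
  have h5 := Set.ncard_le_ncard hsub (Finset.finite_toSet _)
  rw [Set.ncard_coe_finset] at h5
  exact_mod_cast h5

end Pool.Agent.Results.MP_9d0b4d_nt.SmallestMultipliers
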